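import Pool.Agent.Helper76.GP.VO

/-! # GP / MB: definability of the codes and of random forcing -/

universe u

namespace Pool.Agent.Helper76.GP

open ZFSet MeasureTheory Pool.Agent.Helper66.SC Pool.Agent.Helper22.SC Pool.Agent.Helper66.GP

variable {α : Type (u + 1)} [Ctx.{u} α]

theorem u_VO' : U KZ.{u} (fun _ _ (_ : α) => VO.{u}) := by
  have h : U KZ.{u} (fun N _ (_ : α) => Helper22.SC.VM N (ZFSet.omega : ZFSet.{u})) := by
    apply_rules (transparency := .reducible) (maxDepth := 400) using is_poly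
  refine h.congr ?_
  intro N A hN a _
  exact VM_omega hN

attribute [is_poly] u_VO'

theorem Str_eq : Str.{u} = VO.sep (fun s => ∃ n ∈ ZFSet.omega.{u}, ∃ t ∈ VO.{u}, t ⊆ n ∧
    s = ZFSet.pair n t) := by
  ext s
  rw [ZFSet.mem_sep]
  constructor
  · intro h
    obtain ⟨n, t, ht, rfl⟩ := mem_Str.1 h
    exact ⟨(ZFSet.mem_sep.1 h).1, nz n, nat_mem_omega n, t, sub_VO ht (nz_VO n), ht, rfl⟩
  · rintro ⟨_, n, hn, t, _, ht, rfl⟩
    obtain ⟨n, rfl⟩ := mem_omega_iff'.1 hn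
    exact mem_Str.2 ⟨n, t, ht, rfl⟩

theorem u_Str : U KZ.{u} (fun _ _ (_ : α) => Str.{u}) := by
  rw [Str_eq]
  apply_rules (transparency := .reducible) (maxDepth := 400) using is_poly

attribute [is_poly] u_Str

theorem isOpen_lev (P : ZFSet.{u} → Prop) (n : ℕ) :
    IsOpen {x : ℕ → Bool | P (rl x ∩ nz n)} := by
  rw [isOpen_iff_forall_mem_open]
  intro x hx
  refine ⟨⋂ i ∈ Finset.range n, {x' | x' i = x i}, ?_, ?_, ?_⟩
  · intro x' hx'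
    have h : (rl x' ∩ nz n : ZFSet.{u}) = rl x ∩ nz n := rl_eq.2 (fun i hi => by
      simp only [Set.mem_iInter] at hx'
      exact hx' i (Finset.mem_range.2 hi))
    show P (rl x' ∩ nz n)
    rw [h]
    exact hx
  · refine isOpen_biInter_finset (fun i _ => ?_)
    have h1 : IsOpen ({x i} : Set Bool) := isOpen_discrete _
    exact h1.preimage (continuous_apply (A := fun _ : ℕ => Bool) i)
  · simp

theorem isClosed_cyl (n : ℕ) (t : ZFSet.{u}) : IsClosed (cyl n t) :=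
  ⟨isOpen_lev (fun s => ¬ s = t) n⟩

theorem inter_inter_nz {y : ZFSet.{u}} {m n : ℕ} (h : m ≤ n) :
    ((y ∩ nz n) ∩ nz m : ZFSet.{u}) = y ∩ nz m := by
  ext k
  simp only [ZFSet.mem_inter]
  constructor
  · rintro ⟨⟨h1, _⟩, h2⟩
    exact ⟨h1, h2⟩
  · rintro ⟨h1, h2⟩
    exact ⟨⟨h1, nzs h h2⟩, h2⟩

theorem nz_sub_omega (n : ℕ) : (nz n : ZFSet.{u}) ⊆ ZFSet.omega := by
  intro k hk
  obtain ⟨i, _, rfl⟩ := mem_nz.1 hk
  exact nat_mem_omega i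

/-- compactness -/
theorem cyl_sub_iff {b t : ZFSet.{u}} {n : ℕ} : cyl n t ⊆ US b ↔
    ∃ m : ℕ, n ≤ m ∧ ∀ t' : ZFSet.{u}, t' ⊆ nz m → t' ∩ nz n = t →
      ∃ k : ℕ, k ≤ m ∧ ZFSet.pair (nz k) (t' ∩ nz k) ∈ b := by
  constructor
  · intro h
    have hc : IsCompact (cyl n t) := (isClosed_cyl n t).isCompact
    obtain ⟨k, hk⟩ := hc.elim_directed_cover
      (fun k : ℕ => ⋃ j ∈ Finset.range (k + 1), {x : ℕ → Bool | ZFSet.pair (nz j)
        (rl x ∩ nz j) ∈ b})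
      (fun k => isOpen_biUnion (fun j _ => isOpen_lev (fun s => ZFSet.pair (nz j) s ∈ b) j))
      (fun x hx => by
        obtain ⟨j, hj⟩ := h hx
        refine Set.mem_iUnion.2 ⟨j, ?_⟩
        simp only [Set.mem_iUnion]
        exact ⟨j, Finset.mem_range.2 (Nat.lt_succ_self j), hj⟩)
      (directed_of_isDirected_le (fun i j hij => by
        refine Set.iUnion₂_subset (fun l hl => ?_)
        exact Set.subset_biUnion_of_mem (u := fun l => {x : ℕ → Bool | ZFSet.pair (nz l)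
          (rl x ∩ nz l) ∈ b}) (Finset.mem_range.2 ((Finset.mem_range.1 hl).trans_le
            (Nat.succ_le_succ hij)))))
    refine ⟨max n k, le_max_left _ _, fun t' ht' htn => ?_⟩
    obtain ⟨x, rfl⟩ := exists_rl (ht'.trans (nz_sub_omega _))
    have h1 := hk (show x ∈ cyl n t from htn)
    simp only [Set.mem_iUnion] at h1
    obtain ⟨j, hj, hj'⟩ := h1
    exact ⟨j, (Nat.lt_succ_iff.1 (Finset.mem_range.1 hj)).trans (le_max_right _ _), hj'⟩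
  · rintro ⟨m, hnm, hm⟩ x hx
    obtain ⟨k, hk, hk'⟩ := hm (rl x ∩ nz m) (inter_sub_nz x m) (by
      rw [inter_inter_nz hnm]
      exact hx)
    rw [inter_inter_nz hk] at hk'
    exact ⟨k, hk'⟩

theorem satu_eq (b : ZFSet.{u}) : satu b = Str.sep (fun s => ∃ n ∈ ZFSet.omega.{u},
    ∃ t ∈ VO.{u}, t ⊆ n ∧ s = ZFSet.pair n t ∧ ∃ m ∈ ZFSet.omega.{u}, n ⊆ m ∧
      ∀ t' ∈ VO.{u}, t' ⊆ m → t' ∩ n = t → ∃ k ∈ ZFSet.omega.{u}, k ⊆ m ∧
        ZFSet.pair k (t' ∩ k) ∈ b) := by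
  ext s
  rw [mem_satu, ZFSet.mem_sep]
  constructor
  · rintro ⟨n, t, ht, rfl, h⟩
    obtain ⟨m, hnm, hm⟩ := cyl_sub_iff.1 h
    refine ⟨mem_Str.2 ⟨n, t, ht, rfl⟩, nz n, nat_mem_omega n, t, sub_VO ht (nz_VO n), ht, rfl,
      nz m, nat_mem_omega m, nzs hnm, fun t' _ ht' he => ?_⟩
    obtain ⟨k, hk, hk'⟩ := hm t' ht' he
    exact ⟨nz k, nat_mem_omega k, nzs hk, hk'⟩
  · rintro ⟨_, n, hn, t, _, ht, rfl, m, hm, hnm, h⟩
    obtain ⟨n, rfl⟩ := mem_omega_iff'.1 hn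
    obtain ⟨m, rfl⟩ := mem_omega_iff'.1 hm
    refine ⟨n, t, ht, rfl, cyl_sub_iff.2 ⟨m, ?_, fun t' ht' he => ?_⟩⟩
    · rw [Ordinal.toZFSet_subset_toZFSet_iff] at hnm
      exact_mod_cast hnm
    · obtain ⟨k, hk, hkm, hk'⟩ := h t' (sub_VO ht' (nz_VO m)) ht' he
      obtain ⟨k, rfl⟩ := mem_omega_iff'.1 hk
      rw [Ordinal.toZFSet_subset_toZFSet_iff] at hkm
      exact ⟨k, by exact_mod_cast hkm, hk'⟩

theorem u_satu0 : U KZ.{u} (fun _ _ (b : ZFSet.{u}) => satu b) := by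
  have h : U KZ.{u} (fun _ _ (b : ZFSet.{u}) => ZFSet.sep (fun s => ∃ n ∈ ZFSet.omega.{u},
    ∃ t ∈ VO.{u}, t ⊆ n ∧ s = ZFSet.pair n t ∧ ∃ m ∈ ZFSet.omega.{u}, n ⊆ m ∧
      ∀ t' ∈ VO.{u}, t' ⊆ m → t' ∩ n = t → ∃ k ∈ ZFSet.omega.{u}, k ⊆ m ∧
        ZFSet.pair k (t' ∩ k) ∈ b) Str) := by
    apply_rules (transparency := .reducible) (maxDepth := 400) using is_poly
  refine h.congr ?_
  intro N A _ b _
  exact (satu_eq b).symm

theorem u_satu {f : Set ZFSet.{u} → Set ZFSet.{u} → α → ZFSet.{u}} (hf : U KZ.{u} f) :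
    U KZ.{u} (fun N A a => satu (f N A a)) := u_satu0.comp (f := f) hf

attribute [is_poly] u_satu

theorem Sd_iff {b : ZFSet.{u}} : Sd b ↔ b ⊆ Str ∧ satu b ⊆ b := by
  constructor
  · intro h
    refine ⟨h.1, fun s hs => ?_⟩
    obtain ⟨n, t, ht, rfl, h1⟩ := mem_satu.1 hs
    exact h.2 n t ht h1
  · rintro ⟨h1, h2⟩
    exact ⟨h1, fun n t ht h => h2 (mem_satu.2 ⟨n, t, ht, rfl, h⟩)⟩

theorem u_Sd : URel KZ.{u} (fun _ _ (b : ZFSet.{u}) => Sd b) := by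
  have h : URel KZ.{u} (fun _ _ (b : ZFSet.{u}) => b ⊆ Str ∧ satu b ⊆ b) := by
    apply_rules (transparency := .reducible) (maxDepth := 400) using is_poly
  refine h.congr ?_
  intro N A _ b _
  exact Sd_iff.symm

theorem US_empty : US (∅ : ZFSet.{u}) = ∅ := by
  ext x
  constructor
  · rintro ⟨n, hn⟩
    exact absurd hn (ZFSet.notMem_empty _)
  · exact fun h => h.elim

/-- The code of the whole space. -/
noncomputable def oneC : ZFSet.{u} := {ZFSet.pair ∅ ∅}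

theorem US_one : US (oneC : ZFSet.{u}) = Set.univ := by
  ext x
  refine ⟨fun _ => trivial, fun _ => ⟨0, ?_⟩⟩
  unfold oneC
  rw [ZFSet.mem_singleton]
  have h : (nz 0 : ZFSet.{u}) = ∅ := nat_zero
  show ZFSet.pair (nz 0) (rl x ∩ nz 0) = ZFSet.pair ∅ ∅
  rw [h]
  congr 1
  ext k
  simp

theorem one_Str : (oneC : ZFSet.{u}) ⊆ Str := by
  intro s hs
  unfold oneC at hs
  rw [ZFSet.mem_singleton] at hs
  subst hs
  refine mem_Str.2 ⟨0, ∅, fun k hk => absurd hk (ZFSet.notMem_empty _), ?_⟩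
  have h : (nz 0 : ZFSet.{u}) = ∅ := nat_zero
  rw [h]

theorem one_VO : (oneC : ZFSet.{u}) ∈ VO := by
  refine finite_VO (fun s hs => (ZFSet.mem_sep.1 (one_Str hs)).1) ?_
  refine (Set.finite_singleton (ZFSet.pair ∅ ∅ : ZFSet.{u})).subset (fun s hs => ?_)
  unfold oneC at hs
  exact ZFSet.mem_singleton.1 hs

theorem empty_VO : (∅ : ZFSet.{u}) ∈ VO := by
  rw [mem_VO]
  simp [Ordinal.omega0_pos]

theorem coin_lt_one_iff {b : ZFSet.{u}} (hb : b ⊆ Str) : coin (US b) < 1 ↔ ∃ k n : ℕ,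
    (∀ F ∈ VO, F ⊆ b → ZFSet.pair (ZFSet.pair F ∅) (ZFSet.pair (nz k) (nz n)) ∉ MuR) ∧
      ZFSet.pair (ZFSet.pair oneC ∅) (ZFSet.pair (nz k) (nz n)) ∈ MuR.{u} := by
  have h0 : ∀ k n : ℕ, ((∀ F ∈ VO, F ⊆ b → ZFSet.pair (ZFSet.pair F ∅)
      (ZFSet.pair (nz k) (nz n)) ∉ MuR) ↔ coin (US b) ≤ (k : ENNReal) / 2 ^ n) := by
    intro k n
    have := MA7 b ∅ k n hb empty_VO (fun s hs => absurd hs (ZFSet.notMem_empty _))
    rw [US_empty, Set.sdiff_empty] at this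
    exact this.symm
  have h1 : ∀ k n : ℕ, (ZFSet.pair (ZFSet.pair oneC ∅) (ZFSet.pair (nz k) (nz n)) ∈ MuR.{u} ↔
      (k : ENNReal) / 2 ^ n < 1) := by
    intro k n
    rw [mem_MuR, US_one, US_empty, Set.sdiff_empty, measure_univ]
    exact ⟨fun h => h.2.2.2.2, fun h => ⟨one_VO, empty_VO, one_Str,
      fun s hs => absurd hs (ZFSet.notMem_empty _), h⟩⟩
  simp only [h0, h1]
  constructor
  · intro h
    obtain ⟨n, hn⟩ := ENNReal.exists_inv_two_pow_lt (tsub_pos_of_lt h).ne'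
    have h2 : coin (US b) + 2⁻¹ ^ n ≤ 1 := by
      have h3 := add_le_add_right hn.le (coin (US b))
      rwa [add_tsub_cancel_of_le h.le] at h3
    have h4 : (2 : ENNReal) ^ n ≠ 0 := pow_ne_zero _ (by norm_num)
    have h5 : (2 : ENNReal) ^ n ≠ ⊤ := ENNReal.pow_ne_top (by norm_num)
    have h6 : ((2 ^ n - 1 : ℕ) : ENNReal) + 1 = 2 ^ n := by
      have : (2 ^ n - 1 : ℕ) + 1 = 2 ^ n := Nat.sub_add_cancel Nat.one_le_two_pow
      exact_mod_cast this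
    refine ⟨2 ^ n - 1, n, ?_, ?_⟩
    · rw [ENNReal.le_div_iff_mul_le (Or.inl h4) (Or.inl h5)]
      have h7 := mul_le_mul_left h2 ((2 : ENNReal) ^ n)
      rw [add_mul, one_mul, ← mul_pow, ENNReal.inv_mul_cancel (by norm_num) (by norm_num),
        one_pow, ← h6] at h7
      rw [← h6]
      exact (ENNReal.add_le_add_iff_right ENNReal.one_ne_top).1 h7
    · rw [ENNReal.div_lt_iff (Or.inl h4) (Or.inl h5), one_mul, ← h6]
      exact ENNReal.lt_add_right (ENNReal.natCast_ne_top _) one_ne_zero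
  · rintro ⟨k, n, h2, h3⟩
    exact h2.trans_lt h3

/-- random forcing from the parameter `m` -/
noncomputable def RR (m : ZFSet.{u}) (N : Set ZFSet.{u}) : ZFSet.{u} :=
  (Helper66.SC.Pow N Str).sep (fun b => satu b ⊆ b ∧ ∃ k ∈ ZFSet.omega.{u},
    ∃ n ∈ ZFSet.omega.{u}, (∀ F ∈ VO.{u}, F ⊆ b →
      ZFSet.pair (ZFSet.pair F ∅) (ZFSet.pair k n) ∉ m) ∧
        ZFSet.pair (ZFSet.pair {ZFSet.pair ∅ ∅} ∅) (ZFSet.pair k n) ∈ m)

theorem u_RR : U KZ.{u} (fun N _ (m : ZFSet.{u}) => RR m N) := by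
  unfold RR
  apply_rules (transparency := .reducible) (maxDepth := 400) using is_poly

theorem RR_eq (M : Set ZFSet.{u}) : RR MuR M = RB M := by
  unfold RR RB
  ext b
  rw [ZFSet.mem_sep, ZFSet.mem_sep]
  refine and_congr_right (fun hb => ?_)
  have hb' : b ⊆ Str := (mem_Pow.1 hb).2
  rw [Sd_iff, coin_lt_one_iff hb']
  constructor
  · rintro ⟨h1, k, hk, n, hn, h2, h3⟩
    obtain ⟨k, rfl⟩ := mem_omega_iff'.1 hk
    obtain ⟨n, rfl⟩ := mem_omega_iff'.1 hn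
    exact ⟨⟨hb', h1⟩, k, n, h2, h3⟩
  · rintro ⟨⟨_, h1⟩, k, n, h2, h3⟩
    exact ⟨h1, nz k, nat_mem_omega k, nz n, nat_mem_omega n, h2, h3⟩

theorem RB_mem {M A : Set ZFSet.{u}} (hM : IsZF M A) (hm : MuR ∈ M) : RB M ∈ M := by
  rw [← RR_eq]
  exact in_zfset.1 (u_RR.closed hM (a := MuR) (in_zfset.2 hm))

theorem mem_RB {M : Set ZFSet.{u}} {b : ZFSet.{u}} : b ∈ RB M ↔ b ∈ M ∧ Sd b ∧
    coin (US b) < 1 := by
  unfold RB PW
  rw [ZFSet.mem_sep, mem_Pow]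
  constructor
  · rintro ⟨⟨h1, _⟩, h2, h3⟩
    exact ⟨h1, h2, h3⟩
  · rintro ⟨h1, h2, h3⟩
    exact ⟨⟨h1, h2.1⟩, h2, h3⟩

theorem Sd_empty : Sd (∅ : ZFSet.{u}) := by
  refine ⟨fun s hs => absurd hs (ZFSet.notMem_empty _), fun n t ht h => ?_⟩
  obtain ⟨x, rfl⟩ := exists_rl (ht.trans (nz_sub_omega n))
  have h1 : x ∈ cyl n (rl.{u} x) := by
    show rl x ∩ nz n = rl x
    ext k
    rw [ZFSet.mem_inter]
    exact ⟨fun h => h.1, fun h => ⟨h, ht h⟩⟩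
  have h2 := h h1
  rw [US_empty] at h2
  exact h2.elim

theorem empty_RB {M A : Set ZFSet.{u}} (hM : IsZF M A) : ∅ ∈ RB M := by
  rw [mem_RB]
  refine ⟨hM.empty_mem, Sd_empty, ?_⟩
  rw [US_empty, measure_empty]
  exact one_pos

/-- MB. -/
theorem st_MB : ST_MB.{u} := by
  refine ⟨u_Str, u_satu0, u_Sd, ⟨RR, u_RR, fun M A _ _ => RR_eq M⟩, fun M A hM hm =>
    ⟨RB_mem hM hm, empty_RB hM⟩⟩

end Pool.Agent.Helper76.GP
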