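import Pool.Agent.Helper76.GP.MA

/-! # GP / VO: basic facts on `V_ω` -/

universe u

namespace Pool.Agent.Helper76.GP

open ZFSet Pool.Agent.Helper66.SC Pool.Agent.Helper22.SC Pool.Agent.Helper66.GP

theorem mem_VO {x : ZFSet.{u}} : x ∈ VO ↔ rank x < Ordinal.omega0 := by
  unfold VO
  rw [ZFSet.mem_vonNeumann]

theorem finite_vonNeumann (n : ℕ) : {y | y ∈ ZFSet.vonNeumann (n : Ordinal.{u})}.Finite := by
  induction n with
  | zero =>
    simp
  | succ n ih =>
    rw [Nat.cast_succ, ZFSet.vonNeumann_add_one]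
    have h : {y : ZFSet.{u} | y ∈ powerset (ZFSet.vonNeumann (n : Ordinal.{u}))} ⊆
        (fun y : ZFSet.{u} => {z | z ∈ y}) ⁻¹'
          (Set.powerset {y | y ∈ ZFSet.vonNeumann (n : Ordinal.{u})}) := by
      intro y hy z hz
      exact (ZFSet.mem_powerset.1 hy) hz
    refine Set.Finite.subset (Set.Finite.preimage ?_ ih.powerset) h
    intro a _ b _ hab
    ext z
    exact Set.ext_iff.1 hab z

theorem VO_finite {x : ZFSet.{u}} (hx : x ∈ VO) : {y | y ∈ x}.Finite := by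
  rw [mem_VO] at hx
  obtain ⟨n, hn⟩ := Ordinal.lt_omega0.1 hx
  refine (finite_vonNeumann n).subset (fun y hy => ?_)
  show y ∈ ZFSet.vonNeumann (n : Ordinal.{u})
  rw [ZFSet.mem_vonNeumann, ← hn]
  exact rank_lt_of_mem hy

theorem finite_VO {x : ZFSet.{u}} (hx : x ⊆ VO) (hf : {y | y ∈ x}.Finite) : x ∈ VO := by
  rw [mem_VO]
  have h1 : ∃ n : ℕ, ∀ y ∈ x, rank y < (n : Ordinal.{u}) := by
    have hb : ∀ y ∈ {y | y ∈ x}, ∃ n : ℕ, rank y < (n : Ordinal.{u}) := by
      intro y hy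
      obtain ⟨n, hn⟩ := Ordinal.lt_omega0.1 (mem_VO.1 (hx hy))
      refine ⟨n + 1, ?_⟩
      rw [hn]
      exact_mod_cast Nat.lt_succ_self n
    choose! g hg using hb
    obtain ⟨N, hN⟩ := (hf.image g).bddAbove
    refine ⟨N, fun y hy => (hg y hy).trans_le ?_⟩
    exact_mod_cast hN ⟨y, hy, rfl⟩
  obtain ⟨n, hn⟩ := h1
  refine lt_of_le_of_lt ?_ (Ordinal.natCast_lt_omega0 n)
  rw [rank_le_iff]
  exact fun y hy => hn y hy

theorem finite_mem {N A : Set ZFSet.{u}} (hN : IsZF N A) {x : ZFSet.{u}}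
    (hx : ∀ y ∈ x, y ∈ N) (hf : {y | y ∈ x}.Finite) : x ∈ N := by
  have key : ∀ s : Set ZFSet.{u}, s.Finite → s ⊆ N → ∃ z ∈ N, ∀ y, y ∈ z ↔ y ∈ s := by
    intro s hs
    induction s, hs using Set.Finite.induction_on with
    | empty => exact fun _ => ⟨∅, hN.empty_mem, by simp⟩
    | insert _ _ ih =>
      rename_i a s _ _
      intro hsub
      obtain ⟨z, hz, hz'⟩ := ih (fun y hy => hsub (Set.mem_insert_of_mem _ hy))
      refine ⟨insert a z, hN.insert_mem (hsub (Set.mem_insert _ _)) hz, fun y => ?_⟩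
      rw [ZFSet.mem_insert_iff, Set.mem_insert_iff, hz']
  obtain ⟨z, hz, hz'⟩ := key _ hf (fun y hy => hx y hy)
  have : x = z := by
    ext y
    exact (hz' y).symm
  rw [this]
  exact hz

theorem VO_trans {x y : ZFSet.{u}} (hx : x ∈ VO) (hy : y ∈ x) : y ∈ VO := by
  rw [mem_VO] at *
  exact (rank_lt_of_mem hy).trans hx

theorem VO_mem' {N A : Set ZFSet.{u}} (hN : IsZF N A) : ∀ x : ZFSet.{u}, x ∈ VO → x ∈ N := by
  intro x
  induction x using ZFSet.inductionOn with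
  | _ x ih =>
    intro hx
    exact finite_mem hN (fun y hy => ih y hy (VO_trans hx hy)) (VO_finite hx)

theorem VM_omega {N A : Set ZFSet.{u}} (hN : IsZF N A) : Helper22.SC.VM N ZFSet.omega = VO := by
  ext x
  rw [mem_VM, omega_eq, Ordinal.rank_toZFSet, mem_VO]
  exact ⟨fun h => h.2, fun h => ⟨VO_mem' hN x (mem_VO.2 h), h⟩⟩

theorem u_VO : U KZ.{u} (fun _ _ (_ : PUnit.{u + 2}) => VO.{u}) := by
  have h : U KZ.{u} (fun N _ (_ : PUnit.{u + 2}) => Helper22.SC.VM N (ZFSet.omega : ZFSet.{u})) := by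
    apply_rules (transparency := .reducible) (maxDepth := 400) using is_poly
  refine h.congr ?_
  intro N A hN a _
  exact VM_omega hN

theorem VO_mem {N A : Set ZFSet.{u}} (hN : IsZF N A) : VO ∈ N := by
  rw [← VM_omega hN]
  exact hN.VM_mem hN.omega

theorem omega_VO : ZFSet.omega.{u} ⊆ VO := by
  intro x hx
  obtain ⟨n, rfl⟩ := mem_omega_iff'.1 hx
  exact nz_VO n

theorem FF_VO {x : ZFSet.{u}} (hx : FF x) : x ⊆ VO := by
  intro t ht
  obtain ⟨a, ha, b, hb, rfl⟩ := ZFSet.mem_prod.1 (hx.1 ht)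
  exact pair_VO (omega_VO ha) (omega_VO hb)

theorem mem_Rl {M : Set ZFSet.{u}} {x : ZFSet.{u}} : x ∈ Rl M ↔ x ⊆ VO ∧ x ∈ M := by
  unfold Rl PW
  rw [mem_Pow]
  exact and_comm

/-! ### pairing of natural numbers -/

/-- doubling -/
noncomputable def dbl (x : ZFSet.{u}) : ZFSet.{u} := Helper22.SC.nat (2 * toNat x)

theorem toNat_of_not {x : ZFSet.{u}} (h : x ∉ ZFSet.omega) : toNat x = 0 := by
  unfold Helper22.SC.toNat
  rw [dif_neg]
  rintro ⟨n, rfl⟩
  exact h (nat_mem_omega n)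

theorem u_dbl : U KZ.{u} (fun _ _ (x : ZFSet.{u}) => dbl x) := by
  classical
  have h := U.natrec (C := KZ.{u}) (α := ZFSet.{u}) (z := fun _ _ _ => (∅ : ZFSet.{u}))
    (S := fun _ _ _ _ h => (Insert.insert (Insert.insert h h : ZFSet.{u})
      (Insert.insert h h : ZFSet.{u}) : ZFSet.{u}))
    (H := fun _ _ _ n => Helper22.SC.nat (2 * n)) (f := fun _ _ x => x)
    (by apply_rules (transparency := .reducible) (maxDepth := 400) using is_poly)
    (by apply_rules (transparency := .reducible) (maxDepth := 400) using is_poly)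
    (fun _ _ _ => by simp)
    (fun _ _ _ n => by
      rw [show 2 * (n + 1) = 2 * n + 1 + 1 from rfl, nat_succ, nat_succ])
    (by apply_rules (transparency := .reducible) (maxDepth := 400) using is_poly)
  refine h.congr ?_
  intro N A _ x _
  show (if x ∈ ZFSet.omega then Helper22.SC.nat (2 * toNat x) else ∅) = dbl x
  unfold dbl
  split_ifs with h1
  · rfl
  · rw [toNat_of_not h1]
    simp

/-- `2 ^ m * (2 * n + 1)` -/
noncomputable def jj (x y : ZFSet.{u}) : ZFSet.{u} :=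
  Helper22.SC.nat (2 ^ toNat x * (2 * toNat y + 1))

open Classical in
theorem u_jj : U KZ.{u} (fun _ _ (p : ZFSet.{u} × ZFSet.{u}) =>
    if p.1 ∈ ZFSet.omega then jj p.1 p.2 else ∅) := by
  have h := U.natrec (C := KZ.{u}) (α := ZFSet.{u} × ZFSet.{u})
    (z := fun _ _ p => (Insert.insert (dbl p.2) (dbl p.2) : ZFSet.{u}))
    (S := fun _ _ _ _ h => dbl h)
    (H := fun _ _ p n => Helper22.SC.nat (2 ^ n * (2 * toNat p.2 + 1)))
    (f := fun _ _ p => p.1)
    (by
      refine U.insert ?_ ?_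
      · exact u_dbl.comp (f := fun _ _ (p : ZFSet.{u} × ZFSet.{u}) => p.2) U.id.snd
      · exact u_dbl.comp (f := fun _ _ (p : ZFSet.{u} × ZFSet.{u}) => p.2) U.id.snd)
    (u_dbl.comp (f := fun _ _ (p : ((ZFSet.{u} × ZFSet.{u}) × ZFSet.{u}) × ZFSet.{u}) => p.2)
      U.id.snd)
    (fun _ _ _ => by
      rw [pow_zero, one_mul, nat_succ]
      rfl)
    (fun _ _ _ n => by
      unfold dbl
      rw [toNat_nat]
      congr 1
      ring)
    (by apply_rules (transparency := .reducible) (maxDepth := 400) using is_poly)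
  exact h

theorem jj_inj {m n m' n' : ℕ} (h : 2 ^ m * (2 * n + 1) = 2 ^ m' * (2 * n' + 1)) :
    m = m' ∧ n = n' := by
  have key : ∀ {m n m' n' : ℕ}, 2 ^ m * (2 * n + 1) = 2 ^ m' * (2 * n' + 1) → m ≤ m' → m = m' := by
    intro m n m' n' h hm
    obtain ⟨k, rfl⟩ := Nat.exists_eq_add_of_le hm
    rw [pow_add, mul_assoc] at h
    have h1 := Nat.eq_of_mul_eq_mul_left (pow_pos (by norm_num : 0 < 2) m) h
    rcases Nat.eq_zero_or_pos k with rfl | hk
    · rfl
    · exfalso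
      obtain ⟨j, rfl⟩ := Nat.exists_eq_add_of_lt hk
      have h2 : 2 * n + 1 = 2 * (2 ^ j * (2 * n' + 1)) := by
        rw [h1, Nat.zero_add, pow_succ]
        ring
      omega
  have hm : m = m' := by
    rcases le_total m m' with h1 | h1
    · exact key h h1
    · exact (key h.symm h1).symm
  subst hm
  have h1 := Nat.eq_of_mul_eq_mul_left (pow_pos (by norm_num : 0 < 2) m) h
  exact ⟨rfl, by omega⟩

theorem prod_omega {M A : Set ZFSet.{u}} (hM : IsZF M A) :
    CardLe M (ZFSet.omega.prod ZFSet.omega) ZFSet.omega := by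
  classical
  refine cardLe_of_gr (g := fun z => if pfst z ∈ ZFSet.omega then jj (pfst z) (psnd z) else ∅)
    ?_ ?_ ?_
  · have h : U KZ.{u} (fun _ _ (w : ZFSet.{u}) => Helper22.SC.gr w (fun z =>
        if pfst z ∈ ZFSet.omega then jj (pfst z) (psnd z) else ∅)) := by
      refine U.gr U.id ?_
      exact u_jj.comp (f := fun _ _ (p : ZFSet.{u} × ZFSet.{u}) => (pfst p.2, psnd p.2))
        (U.prodMk (U.pfst U.id.snd) (U.psnd U.id.snd))
    exact in_zfset.1 (h.closed hM (a := ZFSet.omega.prod ZFSet.omega)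
      (in_zfset.2 (prod_mem hM hM.omega hM.omega)))
  · intro z hz
    obtain ⟨a, ha, b, hb, rfl⟩ := ZFSet.mem_prod.1 hz
    rw [pfst_pair, psnd_pair, if_pos ha]
    exact nat_mem_omega _
  · intro z hz z' hz' h
    obtain ⟨a, ha, b, hb, rfl⟩ := ZFSet.mem_prod.1 hz
    obtain ⟨a', ha', b', hb', rfl⟩ := ZFSet.mem_prod.1 hz'
    rw [pfst_pair, psnd_pair, pfst_pair, psnd_pair, if_pos ha, if_pos ha'] at h
    obtain ⟨i, rfl⟩ := Helper22.SC.mem_omega.1 ha
    obtain ⟨j, rfl⟩ := Helper22.SC.mem_omega.1 hb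
    obtain ⟨i', rfl⟩ := Helper22.SC.mem_omega.1 ha'
    obtain ⟨j', rfl⟩ := Helper22.SC.mem_omega.1 hb'
    unfold jj at h
    rw [toNat_nat, toNat_nat, toNat_nat, toNat_nat] at h
    obtain ⟨h1, h2⟩ := jj_inj (Helper22.SC.nat_inj.1 h)
    rw [h1, h2]

theorem fin_cardLe {M A : Set ZFSet.{u}} (hM : IsZF M A) {x : ZFSet.{u}} (hx : ∀ y ∈ x, y ∈ M)
    (hf : {y | y ∈ x}.Finite) : CardLe M x ZFSet.omega := by
  obtain ⟨f, hfi⟩ := Set.countable_iff_exists_injOn.1 hf.countable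
  refine cardLe_of_gr (g := fun y => nz (f y)) ?_ (fun y _ => nat_mem_omega _) ?_
  · refine finite_mem hM ?_ ?_
    · intro t ht
      obtain ⟨y, hy, rfl⟩ := mem_gr.1 ht
      exact hM.pair_mem (hx y hy) (hM.trans _ hM.omega _ (nat_mem_omega _))
    · refine (hf.image (fun y => ZFSet.pair y (nz (f y)))).subset ?_
      intro t ht
      obtain ⟨y, hy, rfl⟩ := mem_gr.1 ht
      exact ⟨y, hy, rfl⟩
  · intro y hy y' hy' h
    exact hfi hy hy' (nzi.1 h)

theorem VO_cardLe {M A : Set ZFSet.{u}} (hM : IsZF M A) (hWO : WO M) :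
    CardLe M VO ZFSet.omega := by
  set s : ZFSet.{u} := img ZFSet.omega (fun n => Helper22.SC.VM M n) with hs
  have hsM : s ∈ M := by
    have h : U KZ.{u} (fun N _ (w : ZFSet.{u}) => Helper66.SC.img w (fun n =>
        Helper22.SC.VM N n)) := by
      apply_rules (transparency := .reducible) (maxDepth := 400) using is_poly
    exact in_zfset.1 (h.closed hM (a := ZFSet.omega) (in_zfset.2 hM.omega))
  have hgM : Helper22.SC.gr ZFSet.omega (fun n => Helper22.SC.VM M n) ∈ M := by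
    have h : U KZ.{u} (fun N _ (w : ZFSet.{u}) => Helper22.SC.gr w (fun n =>
        Helper22.SC.VM N n)) := by
      apply_rules (transparency := .reducible) (maxDepth := 400) using is_poly
    exact in_zfset.1 (h.closed hM (a := ZFSet.omega) (in_zfset.2 hM.omega))
  have h1 : CardLe M s ZFSet.omega := by
    rw [omega_eq]
    have hoM : oz Ordinal.omega0 ∈ M := by
      have := hM.omega
      rwa [omega_eq] at this
    refine st_K2 M A hM ZFSet.omega hM.omega s hsM _ hgM _ hoM ?_ ?_ ?_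
    · rw [omega_eq]
      exact cardLe_refl hM hoM
    · intro x y z hy hz
      exact (pair_mem_gr.1 hy).2.trans (pair_mem_gr.1 hz).2.symm
    · intro y hy
      obtain ⟨x, hx, rfl⟩ := mem_img.1 hy
      exact ⟨x, hx, pair_mem_gr.2 ⟨hx, rfl⟩⟩
  have h2 : ∀ x ∈ s, CardLe M x ZFSet.omega := by
    intro x hx
    obtain ⟨n, hn, rfl⟩ := mem_img.1 hx
    obtain ⟨n, rfl⟩ := mem_omega_iff'.1 hn
    refine fin_cardLe hM (fun y hy => (mem_VM.1 hy).1) ?_
    refine (finite_vonNeumann n).subset (fun y hy => ?_)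
    show y ∈ ZFSet.vonNeumann (n : Ordinal.{u})
    rw [ZFSet.mem_vonNeumann]
    have := (mem_VM.1 hy).2
    rwa [Ordinal.rank_toZFSet] at this
  have h3 := st_K4 M A hM hWO s hsM ZFSet.omega hM.omega ZFSet.omega hM.omega h1 h2
  have h4 : VO = ZFSet.sUnion s := by
    ext x
    rw [ZFSet.mem_sUnion]
    constructor
    · intro hx
      obtain ⟨n, hn⟩ := Ordinal.lt_omega0.1 (mem_VO.1 hx)
      refine ⟨Helper22.SC.VM M (nz (n + 1)), mem_img.2 ⟨nz (n + 1), nat_mem_omega _, rfl⟩, ?_⟩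
      rw [mem_VM, Ordinal.rank_toZFSet, hn]
      exact ⟨VO_mem' hM x hx, by exact_mod_cast Nat.lt_succ_self n⟩
    · rintro ⟨w, hw, hx⟩
      obtain ⟨n, hn, rfl⟩ := mem_img.1 hw
      obtain ⟨n, rfl⟩ := mem_omega_iff'.1 hn
      rw [mem_VM, Ordinal.rank_toZFSet] at hx
      exact mem_VO.2 (hx.2.trans (Ordinal.natCast_lt_omega0 n))
  rw [h4]
  exact cardLe_trans hM (h4 ▸ VO_mem hM) h3 (prod_omega hM)

/-- VO. -/
theorem st_VO : ST_VO.{u} := by
  refine ⟨u_VO, fun x hx hf => finite_VO hx hf, fun x y hx hy => pair_VO hx hy,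
    fun x hx => VO_finite hx, nz_VO, omega_VO, fun x hx => FF_VO hx, fun M A hM => ?_,
    fun M A hM hWO => ⟨VO_cardLe hM hWO, prod_omega hM⟩⟩
  refine ⟨VO_mem hM, Helper22.SC.Pow_mem hM (VO_mem hM), ?_, VO_mem' hM⟩
  intro x hx y hy
  obtain ⟨h1, h2⟩ := mem_Rl.1 hx
  exact mem_Rl.2 ⟨fun z hz => VO_trans (h1 hy) hz, hM.trans x h2 y hy⟩

end Pool.Agent.Helper76.GP
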