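import Pool.Agent.Helper66.GP.Defs

/-! # GP / MA: basic facts on codes of open sets and the coin measure -/

universe u

namespace Pool.Agent.Helper76.GP

open ZFSet MeasureTheory Pool.Agent.Helper66.SC Pool.Agent.Helper22.SC Pool.Agent.Helper66.GP

theorem nzi {m n : ℕ} : (nz m : ZFSet.{u}) = nz n ↔ m = n := by
  rw [Ordinal.toZFSet_injective.eq_iff]
  exact Nat.cast_inj

theorem nzm {m n : ℕ} : (nz m : ZFSet.{u}) ∈ nz n ↔ m < n := by
  rw [Ordinal.toZFSet_mem_toZFSet_iff]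
  exact Nat.cast_lt

theorem nzs {m n : ℕ} (h : m ≤ n) : (nz m : ZFSet.{u}) ⊆ nz n := by
  rw [Ordinal.toZFSet_subset_toZFSet_iff]
  exact_mod_cast h

theorem mem_nz {n : ℕ} {k : ZFSet.{u}} : k ∈ nz n ↔ ∃ i < n, k = nz i := by
  constructor
  · intro h
    rw [Ordinal.mem_toZFSet_iff] at h
    obtain ⟨a, ha, rfl⟩ := h
    obtain ⟨i, rfl⟩ := Ordinal.lt_omega0.1 (ha.trans (Ordinal.natCast_lt_omega0 n))
    exact ⟨i, by exact_mod_cast ha, rfl⟩
  · rintro ⟨i, hi, rfl⟩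
    exact nzm.2 hi

theorem mem_rl {x : ℕ → Bool} {i : ℕ} : (nz i : ZFSet.{u}) ∈ rl x ↔ x i = true := by
  unfold rl
  rw [ZFSet.mem_sep]
  constructor
  · rintro ⟨_, n, hn, hx⟩
    rw [nzi.1 hn]
    exact hx
  · intro h
    exact ⟨mem_omega_iff'.2 ⟨i, rfl⟩, i, rfl, h⟩

theorem rl_sub (x : ℕ → Bool) : rl.{u} x ⊆ ZFSet.omega := by
  intro k hk
  exact (ZFSet.mem_sep.1 hk).1

theorem rl_eq {x x' : ℕ → Bool} {n : ℕ} :
    (rl x ∩ nz n : ZFSet.{u}) = rl x' ∩ nz n ↔ ∀ i < n, x i = x' i := by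
  constructor
  · intro h i hi
    have h1 : (nz i : ZFSet.{u}) ∈ rl x ↔ (nz i : ZFSet.{u}) ∈ rl x' := by
      have := ZFSet.ext_iff.1 h (nz i)
      simp only [ZFSet.mem_inter, nzm.2 hi, and_true] at this
      exact this
    rw [mem_rl, mem_rl] at h1
    exact Bool.eq_iff_iff.2 h1
  · intro h
    ext k
    rw [ZFSet.mem_inter, ZFSet.mem_inter]
    constructor
    · rintro ⟨h1, h2⟩
      refine ⟨?_, h2⟩
      obtain ⟨i, hi, rfl⟩ := mem_nz.1 h2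
      rw [mem_rl] at h1 ⊢
      rw [← h i hi, h1]
    · rintro ⟨h1, h2⟩
      refine ⟨?_, h2⟩
      obtain ⟨i, hi, rfl⟩ := mem_nz.1 h2
      rw [mem_rl] at h1 ⊢
      rw [h i hi, h1]

/-- cylinders -/
def cyl (n : ℕ) (t : ZFSet.{u}) : Set (ℕ → Bool) := {x | rl x ∩ nz n = t}

theorem mem_US {b : ZFSet.{u}} {x : ℕ → Bool} :
    x ∈ US b ↔ ∃ n : ℕ, pair (nz n) (rl x ∩ nz n) ∈ b := Iff.rfl

theorem isOpen_level (b : ZFSet.{u}) (n : ℕ) :
    IsOpen {x : ℕ → Bool | pair (nz n) (rl x ∩ nz n) ∈ b} := by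
  rw [isOpen_iff_forall_mem_open]
  intro x hx
  refine ⟨⋂ i ∈ Finset.range n, {x' | x' i = x i}, ?_, ?_, ?_⟩
  · intro x' hx'
    have h : (rl x' ∩ nz n : ZFSet.{u}) = rl x ∩ nz n := rl_eq.2 (fun i hi => by
      simp only [Set.mem_iInter] at hx'
      exact hx' i (Finset.mem_range.2 hi))
    show pair (nz n) (rl x' ∩ nz n) ∈ b
    rw [h]
    exact hx
  · refine isOpen_biInter_finset (fun i _ => ?_)
    have h1 : IsOpen ({x i} : Set Bool) := isOpen_discrete _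
    exact h1.preimage (continuous_apply (A := fun _ : ℕ => Bool) i)
  · simp

theorem isOpen_US (b : ZFSet.{u}) : IsOpen (US b) := by
  have : US b = ⋃ n : ℕ, {x : ℕ → Bool | pair (nz n) (rl x ∩ nz n) ∈ b} := by
    ext x
    simp [mem_US]
  rw [this]
  exact isOpen_iUnion (fun n => isOpen_level b n)

theorem meas_US (b : ZFSet.{u}) : MeasurableSet (US b) := (isOpen_US b).measurableSet

theorem exists_rl {y : ZFSet.{u}} (hy : y ⊆ ZFSet.omega) : ∃ x, rl x = y := by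
  classical
  refine ⟨fun i => decide ((nz i : ZFSet.{u}) ∈ y), ?_⟩
  ext k
  constructor
  · intro hk
    obtain ⟨_, n, rfl, h⟩ := ZFSet.mem_sep.1 hk
    exact of_decide_eq_true h
  · intro hk
    obtain ⟨n, rfl⟩ := mem_omega_iff'.1 (hy hk)
    exact mem_rl.2 (decide_eq_true hk)

theorem rank_opair (x y : ZFSet.{u}) : rank (pair x y) = max (rank x) (rank y) + 2 := by
  unfold pair
  rw [ZFSet.rank_pair, ZFSet.rank_pair, ZFSet.rank_singleton]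
  have h : (2 : Ordinal.{u}) = 1 + 1 := one_add_one_eq_two.symm
  rw [h, ← add_assoc, ← Order.succ_eq_add_one, ← Order.succ_eq_add_one,
    Order.succ_max (rank x) (rank y)]
  exact max_eq_right (Order.succ_le_succ (le_max_left (Order.succ (rank x)) _))

theorem pair_VO {x y : ZFSet.{u}} (hx : x ∈ VO) (hy : y ∈ VO) : pair x y ∈ VO := by
  unfold VO at *
  rw [ZFSet.mem_vonNeumann] at *
  rw [rank_opair]
  have h : max (rank x) (rank y) < Ordinal.omega0 := max_lt hx hy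
  obtain ⟨n, hn⟩ := Ordinal.lt_omega0.1 h
  rw [hn]
  exact_mod_cast Ordinal.natCast_lt_omega0 (n + 2)

theorem sub_VO {x y : ZFSet.{u}} (hx : x ⊆ y) (hy : y ∈ VO) : x ∈ VO :=
  ZFSet.mem_vonNeumann_of_subset hx hy

theorem nz_VO (n : ℕ) : (nz n : ZFSet.{u}) ∈ VO := by
  unfold VO
  rw [ZFSet.mem_vonNeumann, Ordinal.rank_toZFSet]
  exact Ordinal.natCast_lt_omega0 n

theorem mem_Str {s : ZFSet.{u}} : s ∈ Str ↔ ∃ (n : ℕ) (t : ZFSet.{u}), t ⊆ nz n ∧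
    s = pair (nz n) t := by
  constructor
  · intro h
    exact (ZFSet.mem_sep.1 h).2
  · rintro ⟨n, t, ht, rfl⟩
    exact ZFSet.mem_sep.2 ⟨pair_VO (nz_VO n) (sub_VO ht (nz_VO n)), n, t, ht, rfl⟩

theorem cyl_sub {b : ZFSet.{u}} {n : ℕ} {t : ZFSet.{u}} (h : pair (nz n) t ∈ b) :
    cyl n t ⊆ US b := by
  intro x hx
  refine ⟨n, ?_⟩
  have : rl x ∩ nz n = t := hx
  show pair (nz n) (rl x ∩ nz n) ∈ b
  rw [this]
  exact h

theorem mem_satu {b s : ZFSet.{u}} : s ∈ satu b ↔ ∃ (n : ℕ) (t : ZFSet.{u}), t ⊆ nz n ∧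
    s = pair (nz n) t ∧ cyl n t ⊆ US b := by
  constructor
  · intro h
    exact (ZFSet.mem_sep.1 h).2
  · rintro ⟨n, t, ht, rfl, h⟩
    exact ZFSet.mem_sep.2 ⟨mem_Str.2 ⟨n, t, ht, rfl⟩, n, t, ht, rfl, h⟩

theorem inter_sub_nz (x : ℕ → Bool) (n : ℕ) : (rl x ∩ nz n : ZFSet.{u}) ⊆ nz n := by
  intro k hk
  exact (ZFSet.mem_inter.1 hk).2

theorem self_cyl (x : ℕ → Bool) (n : ℕ) : x ∈ cyl.{u} n (rl x ∩ nz n) := rfl

theorem sub_satu {b : ZFSet.{u}} (hb : b ⊆ Str) : b ⊆ satu b := by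
  intro s hs
  obtain ⟨n, t, ht, rfl⟩ := mem_Str.1 (hb hs)
  exact mem_satu.2 ⟨n, t, ht, rfl, cyl_sub hs⟩

theorem US_mono {b c : ZFSet.{u}} (h : b ⊆ c) : US b ⊆ US c := by
  rintro x ⟨n, hn⟩
  exact ⟨n, h hn⟩

theorem US_satu {b : ZFSet.{u}} (hb : b ⊆ Str) : US (satu b) = US b := by
  apply Set.Subset.antisymm
  · rintro x ⟨n, hn⟩
    obtain ⟨m, t, ht, he, h⟩ := mem_satu.1 hn
    obtain ⟨h1, h2⟩ := ZFSet.pair_inj.1 he
    have hnm : n = m := nzi.1 h1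
    subst hnm
    exact h h2
  · exact US_mono (sub_satu hb)

theorem Sd_satu {b : ZFSet.{u}} (hb : b ⊆ Str) : Sd (satu b) := by
  refine ⟨fun s hs => (ZFSet.mem_sep.1 hs).1, fun n t ht h => ?_⟩
  rw [US_satu hb] at h
  exact mem_satu.2 ⟨n, t, ht, rfl, h⟩

theorem cyl_anti {x : ℕ → Bool} {m n : ℕ} (h : m ≤ n) :
    cyl.{u} n (rl x ∩ nz n) ⊆ cyl.{u} m (rl x ∩ nz m) := by
  intro x' hx'
  have h1 := rl_eq.1 (show (rl x' ∩ nz n : ZFSet.{u}) = rl x ∩ nz n from hx')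
  exact rl_eq.2 (fun i hi => h1 i (hi.trans_le h))

theorem Sd_sub {b c : ZFSet.{u}} (hb : Sd b) (hc : Sd c) (h : US b ⊆ US c) : b ⊆ c := by
  intro s hs
  obtain ⟨n, t, ht, rfl⟩ := mem_Str.1 (hb.1 hs)
  exact hc.2 n t ht ((cyl_sub hs).trans h)

theorem inter_l {b c : ZFSet.{u}} : b ∩ c ⊆ b := fun _ h => (ZFSet.mem_inter.1 h).1
theorem inter_r {b c : ZFSet.{u}} : b ∩ c ⊆ c := fun _ h => (ZFSet.mem_inter.1 h).2

theorem Sd_inter {b c : ZFSet.{u}} (hb : Sd b) (hc : Sd c) : Sd (b ∩ c) := by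
  refine ⟨fun s hs => hb.1 (inter_l hs), fun n t ht h => ZFSet.mem_inter.2 ⟨?_, ?_⟩⟩
  · exact hb.2 n t ht (h.trans (US_mono inter_l))
  · exact hc.2 n t ht (h.trans (US_mono inter_r))

theorem US_inter {b c : ZFSet.{u}} (hb : Sd b) (hc : Sd c) : US (b ∩ c) = US b ∩ US c := by
  apply Set.Subset.antisymm
  · exact Set.subset_inter (US_mono inter_l) (US_mono inter_r)
  · rintro x ⟨⟨n, hn⟩, ⟨m, hm⟩⟩
    refine ⟨max n m, ZFSet.mem_inter.2 ⟨?_, ?_⟩⟩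
    · exact hb.2 _ _ (inter_sub_nz x _) ((cyl_anti (le_max_left n m)).trans (cyl_sub hn))
    · exact hc.2 _ _ (inter_sub_nz x _) ((cyl_anti (le_max_right n m)).trans (cyl_sub hm))

theorem US_union (b c : ZFSet.{u}) : US (b ∪ c) = US b ∪ US c := by
  ext x
  constructor
  · rintro ⟨n, hn⟩
    rcases ZFSet.mem_union.1 hn with h | h
    · exact Or.inl ⟨n, h⟩
    · exact Or.inr ⟨n, h⟩
  · rintro (⟨n, hn⟩ | ⟨n, hn⟩)
    · exact ⟨n, ZFSet.mem_union.2 (Or.inl hn)⟩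
    · exact ⟨n, ZFSet.mem_union.2 (Or.inr hn)⟩

instance : IsProbabilityMeasure coin := by
  unfold coin
  infer_instance

/-- finite approximations of `b` -/
noncomputable def ap (b : ZFSet.{u}) (N : ℕ) : ZFSet.{u} :=
  b.sep (fun s => s ∈ ZFSet.vonNeumann (N : Ordinal.{u}))

theorem ap_VO (b : ZFSet.{u}) (N : ℕ) : ap b N ∈ VO := by
  refine sub_VO (y := ZFSet.vonNeumann (N : Ordinal.{u})) ?_ ?_
  · intro s hs
    exact (ZFSet.mem_sep.1 hs).2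
  · exact ZFSet.vonNeumann_mem_of_lt (Ordinal.natCast_lt_omega0 N)

theorem ap_sub (b : ZFSet.{u}) (N : ℕ) : ap b N ⊆ b := fun _ hs => (ZFSet.mem_sep.1 hs).1

theorem ap_mono (b : ZFSet.{u}) {N N' : ℕ} (h : N ≤ N') : ap b N ⊆ ap b N' := by
  intro s hs
  obtain ⟨h1, h2⟩ := ZFSet.mem_sep.1 hs
  exact ZFSet.mem_sep.2 ⟨h1, ZFSet.vonNeumann_subset_of_le (by exact_mod_cast h) h2⟩

theorem iUnion_ap {b : ZFSet.{u}} (hb : b ⊆ Str) : ⋃ N : ℕ, US (ap b N) = US b := by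
  apply Set.Subset.antisymm
  · exact Set.iUnion_subset (fun N => US_mono (ap_sub b N))
  · rintro x ⟨n, hn⟩
    have h1 : pair (nz n) (rl x ∩ nz n) ∈ ZFSet.vonNeumann Ordinal.omega0 :=
      (ZFSet.mem_sep.1 (hb hn)).1
    rw [ZFSet.mem_vonNeumann] at h1
    obtain ⟨m, hm⟩ := Ordinal.lt_omega0.1 h1
    refine Set.mem_iUnion.2 ⟨m + 1, n, ZFSet.mem_sep.2 ⟨hn, ?_⟩⟩
    rw [ZFSet.mem_vonNeumann]
    show rank (pair (nz n) (rl x ∩ nz n)) < ((m + 1 : ℕ) : Ordinal.{u})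
    rw [hm]
    exact_mod_cast Nat.lt_succ_self m

theorem mem_MuR {F F' : ZFSet.{u}} {k n : ℕ} : pair (pair F F') (pair (nz k) (nz n)) ∈ MuR ↔
    F ∈ VO ∧ F' ∈ VO ∧ F ⊆ Str ∧ F' ⊆ Str ∧ (k : ENNReal) / 2 ^ n < coin (US F \ US F') := by
  constructor
  · intro h
    obtain ⟨h1, G, G', k', n', hG, hG', he, hlt⟩ := ZFSet.mem_sep.1 h
    obtain ⟨e1, e2⟩ := ZFSet.pair_inj.1 he
    obtain ⟨e3, e4⟩ := ZFSet.pair_inj.1 e1
    obtain ⟨e5, e6⟩ := ZFSet.pair_inj.1 e2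
    have hk := nzi.1 e5
    have hn := nzi.1 e6
    subst e3 e4 hk hn
    have h3 : F ∈ VO ∧ F' ∈ VO := by
      unfold VO at *
      rw [ZFSet.mem_vonNeumann] at *
      rw [rank_opair, rank_opair] at h1
      rw [ZFSet.mem_vonNeumann]
      have h2 : rank F ≤ max (rank F) (rank F') := le_max_left _ _
      have h3 : rank F' ≤ max (rank F) (rank F') := le_max_right _ _
      have h4 : max (rank F) (rank F') ≤ max (rank F) (rank F') + 2 := le_self_add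
      have h5 : max (rank F) (rank F') + 2 < Ordinal.omega0 := by
        refine lt_of_le_of_lt ?_ h1
        exact (le_max_left _ _).trans le_self_add
      exact ⟨(h2.trans h4).trans_lt h5, (h3.trans h4).trans_lt h5⟩
    exact ⟨h3.1, h3.2, hG, hG', hlt⟩
  · rintro ⟨h1, h2, h3, h4, h5⟩
    exact ZFSet.mem_sep.2 ⟨pair_VO (pair_VO h1 h2) (pair_VO (nz_VO k) (nz_VO n)), F, F', k, n,
      h3, h4, rfl, h5⟩

theorem MA7 (b F' : ZFSet.{u}) (k n : ℕ) (hb : b ⊆ Str) (hF' : F' ∈ VO) (hF'S : F' ⊆ Str) :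
    (coin (US b \ US F') ≤ (k : ENNReal) / 2 ^ n ↔
      ∀ F ∈ VO, F ⊆ b → pair (pair F F') (pair (nz k) (nz n)) ∉ MuR) := by
  constructor
  · intro h F hF hFb hm
    have h1 := (mem_MuR.1 hm).2.2.2.2
    have h2 : coin (US F \ US F') ≤ coin (US b \ US F') :=
      measure_mono (Set.sdiff_subset_sdiff_left (US_mono hFb))
    exact absurd (h1.trans_le (h2.trans h)) (lt_irrefl _)
  · intro h
    have hU : US b \ US F' = ⋃ N : ℕ, (US (ap b N) \ US F') := by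
      rw [← Set.iUnion_sdiff, iUnion_ap hb]
    rw [hU]
    have hmono : Monotone (fun N : ℕ => US (ap b N) \ US F') := fun N N' hN =>
      Set.sdiff_subset_sdiff_left (US_mono (ap_mono b hN))
    rw [hmono.measure_iUnion]
    refine iSup_le (fun N => ?_)
    by_contra hlt
    rw [not_le] at hlt
    exact h (ap b N) (ap_VO b N) (ap_sub b N) (mem_MuR.2 ⟨ap_VO b N, hF',
      fun s hs => hb (ap_sub b N hs), hF'S, hlt⟩)

theorem MA8 (b : ZFSet.{u}) (ε : ENNReal) (hε : 0 < ε) (hb : b ⊆ Str) :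
    ∃ F ∈ VO, F ⊆ b ∧ coin (US b \ US F) < ε := by
  have hanti : Antitone (fun N : ℕ => US b \ US (ap b N)) := fun N N' hN =>
    Set.sdiff_subset_sdiff_right (US_mono (ap_mono b hN))
  have hempty : ⋂ N : ℕ, (US b \ US (ap b N)) = ∅ := by
    rw [← Set.sdiff_iUnion, iUnion_ap hb, Set.sdiff_self]
  have ht := tendsto_measure_iInter_atTop (μ := coin) (s := fun N : ℕ => US b \ US (ap b N))
    (fun N => ((meas_US b).diff (meas_US _)).nullMeasurableSet) hanti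
    ⟨0, measure_ne_top _ _⟩
  rw [hempty, measure_empty] at ht
  obtain ⟨N, hN⟩ := (ht.eventually (gt_mem_nhds hε)).exists
  exact ⟨ap b N, ap_VO b N, ap_sub b N, hN⟩

/-- MA. -/
theorem st_MA : ST_MA.{u} :=
  ⟨fun b => ⟨meas_US b, isOpen_US b⟩, fun _ hy => exists_rl hy, fun x => rl_sub x,
    fun _ hb => ⟨US_satu hb, Sd_satu hb, sub_satu hb⟩,
    fun _ _ hb hc => ⟨⟨US_mono, Sd_sub hb hc⟩, Sd_inter hb hc, US_inter hb hc⟩,
    fun b c => US_union b c, fun b F' k n hb hF' hS => MA7 b F' k n hb hF' hS,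
    fun b ε hε hb => MA8 b ε hε hb⟩

end Pool.Agent.Helper76.GP
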