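import Pool.Agent.Helper76.GP.MB
import Pool.Agent.Helper22.GP.FN

/-! # GP / MH: the measure estimate -/

universe u

namespace Pool.Agent.Helper76.GP

open ZFSet MeasureTheory Pool.Agent.Helper66.SC Pool.Agent.Helper22.SC Pool.Agent.Helper66.GP
open scoped ENNReal

/-- the intersection of a set of codes -/
noncomputable def Int (e : ZFSet.{u}) : ZFSet.{u} := Str.sep (fun s => ∀ b ∈ e, s ∈ b)

theorem mem_Int {e s : ZFSet.{u}} : s ∈ Int e ↔ s ∈ Str ∧ ∀ b ∈ e, s ∈ b := ZFSet.mem_sep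

theorem Int_Str (e : ZFSet.{u}) : Int e ⊆ Str := fun _ h => (mem_Int.1 h).1

theorem u_Int {α : Type (u + 1)} [Ctx.{u} α] {f : Set ZFSet.{u} → Set ZFSet.{u} → α → ZFSet.{u}}
    (hf : U KZ.{u} f) : U KZ.{u} (fun N A a => Int (f N A a)) := by
  have h0 : U KZ.{u} (fun _ _ (e : ZFSet.{u}) => Int e) := by
    unfold Int
    apply_rules (transparency := .reducible) (maxDepth := 400) using is_poly
  exact h0.comp (f := f) hf

attribute [is_poly] u_Int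

theorem US_Int {e : ZFSet.{u}} (hf : {b | b ∈ e}.Finite) (hs : ∀ b ∈ e, Sd b) {x : ℕ → Bool} :
    x ∈ US (Int e) ↔ ∀ b ∈ e, x ∈ US b := by
  constructor
  · rintro ⟨n, hn⟩ b hb
    exact ⟨n, (mem_Int.1 hn).2 b hb⟩
  · intro h
    have h' : ∀ b ∈ {b | b ∈ e}, ∃ n : ℕ, ZFSet.pair (nz n) (rl x ∩ nz n) ∈ b := fun b hb => h b hb
    choose! g hg using h'
    obtain ⟨N, hN⟩ := (hf.image g).bddAbove
    refine ⟨N, mem_Int.2 ⟨mem_Str.2 ⟨N, _, inter_sub_nz x N, rfl⟩, fun b hb => ?_⟩⟩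
    have h1 : g b ≤ N := hN ⟨b, hb, rfl⟩
    exact (hs b hb).2 N _ (inter_sub_nz x N) ((cyl_anti h1).trans (cyl_sub (hg b hb)))

theorem lt_one_iff {A : Set (ℕ → Bool)} (hA : MeasurableSet A) : coin A < 1 ↔ coin Aᶜ ≠ 0 := by
  rw [Ne, prob_compl_eq_zero_iff hA]
  constructor
  · exact fun h => h.ne
  · exact fun h => lt_of_le_of_ne prob_le_one h

theorem VO_countable : {s : ZFSet.{u} | s ∈ VO}.Countable := by
  have h : {s : ZFSet.{u} | s ∈ VO} ⊆ ⋃ n : ℕ, {s | s ∈ ZFSet.vonNeumann (n : Ordinal.{u})} := by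
    intro s hs
    obtain ⟨n, hn⟩ := Ordinal.lt_omega0.1 (mem_VO.1 hs)
    refine Set.mem_iUnion.2 ⟨n + 1, ?_⟩
    show s ∈ ZFSet.vonNeumann ((n + 1 : ℕ) : Ordinal.{u})
    rw [ZFSet.mem_vonNeumann, hn]
    exact_mod_cast Nat.lt_succ_self n
  exact (Set.countable_iUnion (fun n => (finite_vonNeumann n).countable)).mono h

theorem InU_mono {b c y : ZFSet.{u}} (h : b ⊆ c) (hy : InU b y) : InU c y := by
  obtain ⟨n, hn⟩ := hy
  exact ⟨n, h hn⟩

theorem mem_Fy {M : Set ZFSet.{u}} {b y : ZFSet.{u}} : b ∈ Fy M y ↔ b ∈ RB M ∧ ¬ InU b y :=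
  ZFSet.mem_sep

/-- strings of length `n` different from `t` -/
noncomputable def coS (n t : ZFSet.{u}) : ZFSet.{u} :=
  Str.sep (fun s => pfst s = n ∧ ¬ psnd s = t)

theorem US_coS {n : ℕ} {t : ZFSet.{u}} : US (coS (nz n) t) = (cyl n t)ᶜ := by
  ext x
  constructor
  · rintro ⟨m, hm⟩
    obtain ⟨_, h1, h2⟩ := ZFSet.mem_sep.1 hm
    rw [pfst_pair] at h1
    rw [psnd_pair] at h2
    have : m = n := nzi.1 h1
    subst this
    exact h2
  · intro h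
    refine ⟨n, ZFSet.mem_sep.2 ⟨mem_Str.2 ⟨n, _, inter_sub_nz x n, rfl⟩, ?_, ?_⟩⟩
    · rw [pfst_pair]
    · rw [psnd_pair]
      exact h

theorem cyl_zero : cyl 0 (∅ : ZFSet.{u}) = Set.univ := by
  ext x
  refine ⟨fun _ => trivial, fun _ => ?_⟩
  show rl x ∩ nz 0 = ∅
  have h : (nz 0 : ZFSet.{u}) = ∅ := nat_zero
  rw [h]
  ext k
  simp

theorem root_satu {b : ZFSet.{u}} : ZFSet.pair ∅ ∅ ∈ satu b ↔ US b = Set.univ := by
  rw [mem_satu]
  have h : (nz 0 : ZFSet.{u}) = ∅ := nat_zero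
  constructor
  · rintro ⟨n, t, ht, he, h1⟩
    obtain ⟨h2, h3⟩ := ZFSet.pair_inj.1 he
    have h4 : 0 = n := nzi.1 (h.trans h2)
    subst h4
    subst h3
    rw [cyl_zero] at h1
    exact Set.univ_subset_iff.1 h1
  · intro h1
    refine ⟨0, ∅, fun k hk => absurd hk (ZFSet.notMem_empty _), by rw [h], ?_⟩
    rw [h1]
    exact Set.subset_univ _

theorem union_Str {b c : ZFSet.{u}} (hb : b ⊆ Str) (hc : c ⊆ Str) : b ∪ c ⊆ Str := by
  intro s hs
  rcases ZFSet.mem_union.1 hs with h | h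
  · exact hb h
  · exact hc h

theorem sub_union_l {b c : ZFSet.{u}} : b ⊆ b ∪ c := fun _ h => ZFSet.mem_union.2 (Or.inl h)
theorem sub_union_r {b c : ZFSet.{u}} : c ⊆ b ∪ c := fun _ h => ZFSet.mem_union.2 (Or.inr h)

theorem satu_mem {M A : Set ZFSet.{u}} (hM : IsZF M A) {b : ZFSet.{u}} (hb : b ∈ M) :
    satu b ∈ M := in_zfset.1 (u_satu0.closed hM (a := b) (in_zfset.2 hb))

theorem union_mem {M A : Set ZFSet.{u}} (hM : IsZF M A) {b c : ZFSet.{u}} (hb : b ∈ M)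
    (hc : c ∈ M) : b ∪ c ∈ M := by
  have h : U KZ.{u} (fun _ _ (p : ZFSet.{u} × ZFSet.{u}) => p.1 ∪ p.2) := by
    apply_rules (transparency := .reducible) (maxDepth := 400) using is_poly
  have := h.closed hM (a := (b, c)) (by simp [hb, hc])
  simpa using this

theorem coS_mem {M A : Set ZFSet.{u}} (hM : IsZF M A) {b c : ZFSet.{u}} (hb : b ∈ M)
    (hc : c ∈ M) : coS b c ∈ M := by
  have h : U KZ.{u} (fun _ _ (p : ZFSet.{u} × ZFSet.{u}) => coS p.1 p.2) := by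
    unfold coS
    apply_rules (transparency := .reducible) (maxDepth := 400) using is_poly
  have := h.closed hM (a := (b, c)) (by simp [hb, hc])
  simpa using this

/-- adding an open set to a condition -/
theorem ext_RB {M A : Set ZFSet.{u}} (hM : IsZF M A) {b c : ZFSet.{u}} (hb : b ∈ RB M)
    (hc : c ∈ M) (hcS : c ⊆ Str) (h : coin (US b ∪ US c) < 1) :
    satu (b ∪ c) ∈ RB M ∧ b ⊆ satu (b ∪ c) ∧ c ⊆ satu (b ∪ c) ∧
      US (satu (b ∪ c)) = US b ∪ US c := by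
  obtain ⟨h1, h2, _⟩ := mem_RB.1 hb
  have hS := union_Str h2.1 hcS
  have hU : US (satu (b ∪ c)) = US b ∪ US c := by rw [US_satu hS, US_union]
  refine ⟨mem_RB.2 ⟨satu_mem hM (union_mem hM h1 hc), Sd_satu hS, by rw [hU]; exact h⟩,
    fun s hs => sub_satu hS (sub_union_l hs), fun s hs => sub_satu hS (sub_union_r hs), hU⟩

/-- extending a condition into a cylinder contained in `US p` -/
theorem ext_cyl {M A : Set ZFSet.{u}} (hM : IsZF M A) {b p : ZFSet.{u}} (hb : b ∈ RB M)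
    (hp : p ∈ M) {s : ZFSet.{u}} (hs : s ∈ p) (hpS : p ⊆ Str)
    (h : coin ((US b)ᶜ ∩ {x | ∃ n : ℕ, s = ZFSet.pair (nz n) (rl x ∩ nz n)}) ≠ 0) :
    ∃ r ∈ RB M, b ⊆ r ∧ US p ∪ US r = Set.univ := by
  obtain ⟨n, t, ht, rfl⟩ := mem_Str.1 (hpS hs)
  have h1 : {x : ℕ → Bool | ∃ m : ℕ, ZFSet.pair (nz n) t = ZFSet.pair (nz m) (rl x ∩ nz m)} =
      cyl n t := by
    ext x
    constructor
    · rintro ⟨m, hm⟩
      obtain ⟨h2, h3⟩ := ZFSet.pair_inj.1 hm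
      have : n = m := nzi.1 h2
      subst this
      exact h3.symm
    · intro hx
      exact ⟨n, by rw [show rl x ∩ nz n = t from hx]⟩
  rw [h1] at h
  have hst := hM.of_pair (hM.trans p hp _ hs)
  have hcS : coS (nz n) t ⊆ Str := fun w hw => (ZFSet.mem_sep.1 hw).1
  have h2 : coin (US b ∪ US (coS (nz n) t)) < 1 := by
    rw [US_coS, lt_one_iff]
    · rw [Set.compl_union, compl_compl]
      exact h
    · exact (meas_US b).union ((isClosed_cyl n t).measurableSet).compl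
  obtain ⟨h3, h4, _, h6⟩ := ext_RB hM hb (coS_mem hM hst.1 hst.2) hcS h2
  refine ⟨_, h3, h4, ?_⟩
  rw [h6, US_coS]
  apply Set.eq_univ_of_forall
  intro x
  by_cases hx : x ∈ cyl n t
  · exact Or.inl (cyl_sub hs hx)
  · exact Or.inr (Or.inr hx)

/-- a real which meets every dense set is generic -/
theorem generic_of_meets {M A : Set ZFSet.{u}} (hM : IsZF M A) (hm : MuR ∈ M) {y : ZFSet.{u}}
    (hy : y ⊆ ZFSet.omega) (h : ∀ D ∈ M, D ⊆ RB M → (∀ b ∈ RB M, ∃ c ∈ D, b ⊆ c) →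
      ∃ c ∈ D, ¬ InU c y) : IsGeneric M (RB M) (Fy M y) := by
  have hRM := RB_mem hM hm
  refine ⟨fun b hb => (mem_Fy.1 hb).1, mem_Fy.2 ⟨empty_RB hM, ?_⟩, ?_, ?_, ?_⟩
  · rintro ⟨n, hn⟩
    exact absurd hn (ZFSet.notMem_empty _)
  · intro p hp q hq hqp
    exact mem_Fy.2 ⟨hq, fun h1 => (mem_Fy.1 hp).2 (InU_mono hqp h1)⟩
  · intro p hp q hq
    obtain ⟨hpR, hpy⟩ := mem_Fy.1 hp
    obtain ⟨hqR, hqy⟩ := mem_Fy.1 hq
    obtain ⟨hpM, hpS, _⟩ := mem_RB.1 hpR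
    obtain ⟨hqM, hqS, _⟩ := mem_RB.1 hqR
    set D : ZFSet.{u} := (RB M).sep (fun r => (p ⊆ r ∧ q ⊆ r) ∨
      ZFSet.pair ∅ ∅ ∈ satu (p ∪ r) ∨ ZFSet.pair ∅ ∅ ∈ satu (q ∪ r)) with hD
    have hDM : D ∈ M := by
      have hU : U KZ.{u} (fun _ _ (a : (ZFSet.{u} × ZFSet.{u}) × ZFSet.{u}) =>
          ZFSet.sep (fun r => (a.1.1 ⊆ r ∧ a.1.2 ⊆ r) ∨
            ZFSet.pair ∅ ∅ ∈ satu (a.1.1 ∪ r) ∨ ZFSet.pair ∅ ∅ ∈ satu (a.1.2 ∪ r)) a.2) := by
        apply_rules (transparency := .reducible) (maxDepth := 400) using is_poly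
      have := hU.closed hM (a := ((p, q), RB M)) (by simp [hpM, hqM, hRM])
      simpa using this
    obtain ⟨r, hrD, hry⟩ := h D hDM (fun r hr => (ZFSet.mem_sep.1 hr).1) (by
      intro b hb
      obtain ⟨hbM, hbS, hb1⟩ := mem_RB.1 hb
      by_cases h1 : coin (US b ∪ US (p ∪ q)) < 1
      · obtain ⟨h3, h4, h5, h6⟩ := ext_RB hM hb (union_mem hM hpM hqM)
          (union_Str hpS.1 hqS.1) h1
        exact ⟨_, ZFSet.mem_sep.2 ⟨h3, Or.inl ⟨fun s hs => h5 (sub_union_l hs),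
          fun s hs => h5 (sub_union_r hs)⟩⟩, h4⟩
      · have h2 : ∃ s ∈ p ∪ q,
            coin ((US b)ᶜ ∩ {x | ∃ n : ℕ, s = ZFSet.pair (nz n) (rl x ∩ nz n)}) ≠ 0 := by
          by_contra hne
          push Not at hne
          rw [lt_one_iff ((meas_US b).union (meas_US _)), not_not] at h1
          have h3 : coin (⋃ s ∈ {s | s ∈ p ∪ q}, ((US b)ᶜ ∩
              {x | ∃ n : ℕ, s = ZFSet.pair (nz n) (rl x ∩ nz n)})) = 0 := by
            rw [measure_biUnion_null_iff]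
            · exact fun s hs => hne s hs
            · exact VO_countable.mono (fun s hs =>
                (ZFSet.mem_sep.1 (union_Str hpS.1 hqS.1 hs)).1)
          rw [lt_one_iff (meas_US b)] at hb1
          refine hb1 (measure_mono_null ?_ (measure_union_null h1 h3))
          intro x hx
          by_cases hx2 : x ∈ US (p ∪ q)
          · obtain ⟨n, hn⟩ := hx2
            refine Or.inr (Set.mem_biUnion (x := ZFSet.pair (nz n) (rl x ∩ nz n)) hn ?_)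
            exact ⟨hx, n, rfl⟩
          · refine Or.inl ?_
            rw [Set.compl_union]
            exact ⟨hx, hx2⟩
        obtain ⟨s, hs, hs1⟩ := h2
        rcases ZFSet.mem_union.1 hs with hs | hs
        · obtain ⟨r, hr, hbr, hr2⟩ := ext_cyl hM hb hpM hs hpS.1 hs1
          refine ⟨r, ZFSet.mem_sep.2 ⟨hr, Or.inr (Or.inl ?_)⟩, hbr⟩
          rw [root_satu, US_union]
          exact hr2
        · obtain ⟨r, hr, hbr, hr2⟩ := ext_cyl hM hb hqM hs hqS.1 hs1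
          refine ⟨r, ZFSet.mem_sep.2 ⟨hr, Or.inr (Or.inr ?_)⟩, hbr⟩
          rw [root_satu, US_union]
          exact hr2)
    obtain ⟨hrR, hr⟩ := ZFSet.mem_sep.1 hrD
    obtain ⟨x, rfl⟩ := exists_rl hy
    rcases hr with hr | hr | hr
    · exact ⟨r, mem_Fy.2 ⟨hrR, hry⟩, hr.1, hr.2⟩
    · exfalso
      rw [root_satu, US_union] at hr
      rcases (hr ▸ Set.mem_univ x : x ∈ US p ∪ US r) with h1 | h1
      · exact hpy h1
      · exact hry h1
    · exfalso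
      rw [root_satu, US_union] at hr
      rcases (hr ▸ Set.mem_univ x : x ∈ US q ∪ US r) with h1 | h1
      · exact hqy h1
      · exact hry h1
  · intro D hD hDR hd
    obtain ⟨c, hc, hcy⟩ := h D hD hDR hd
    exact ⟨c, mem_Fy.2 ⟨hDR hc, hcy⟩, hc⟩

theorem exists_zfset (E : Finset ZFSet.{u}) : ∃ e : ZFSet.{u}, ∀ x, x ∈ e ↔ x ∈ E := by
  classical
  induction E using Finset.induction_on with
  | empty => exact ⟨∅, by simp⟩
  | insert a s _ ih =>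
    obtain ⟨e, he⟩ := ih
    exact ⟨Insert.insert a e, fun x => by rw [ZFSet.mem_insert_iff, Finset.mem_insert, he]⟩

theorem Int_mem {M A : Set ZFSet.{u}} (hM : IsZF M A) {e : ZFSet.{u}} (he : e ∈ M) :
    Int e ∈ M := by
  have h : U KZ.{u} (fun _ _ (p : ZFSet.{u}) => Int p) := by
    apply_rules (transparency := .reducible) (maxDepth := 400) using is_poly
  exact in_zfset.1 (h.closed hM (a := e) (in_zfset.2 he))

/-- the shift by `j` -/
noncomputable def sh : ℕ → ZFSet.{u} → ZFSet.{u}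
  | 0, x => x
  | j + 1, x => Insert.insert (sh j x) (sh j x)

theorem sh_nz (j n : ℕ) : sh j (nz.{u} n) = nz (n + j) := by
  induction j with
  | zero => rfl
  | succ j ih =>
    show Insert.insert (sh j (nz n)) (sh j (nz n)) = _
    rw [ih]
    exact (nat_succ (n + j)).symm

theorem u_sh {α : Type (u + 1)} [Ctx.{u} α] (j : ℕ)
    {f : Set ZFSet.{u} → Set ZFSet.{u} → α → ZFSet.{u}}
    (hf : U KZ.{u} f) : U KZ.{u} (fun N A a => sh j (f N A a)) := by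
  induction j with
  | zero => exact hf
  | succ j ih => exact U.insert ih ih

attribute [is_poly] u_sh

/-- candidates for the finite intersections of elements of `D` with measure at most `2^-k`.
Parameters: `T = PW M Str`, `Q = PW M (RB M)`, `m = MuR`. -/
noncomputable def SS (T Q m D k : ZFSet.{u}) : ZFSet.{u} :=
  T.sep (fun c => (∃ e ∈ Q, {b | b ∈ e}.Finite ∧ e ⊆ D ∧ c = Int e) ∧
    ∀ F ∈ VO.{u}, F ⊆ c → ZFSet.pair (ZFSet.pair F ∅) (ZFSet.pair (Helper22.SC.nat 1) k) ∉ m)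

theorem u_SS {α : Type (u + 1)} [Ctx.{u} α]
    {f g h i j : Set ZFSet.{u} → Set ZFSet.{u} → α → ZFSet.{u}}
    (hf : U KZ.{u} f) (hg : U KZ.{u} g) (hh : U KZ.{u} h) (hi : U KZ.{u} i) (hj : U KZ.{u} j) :
    U KZ.{u} (fun N A a => SS (f N A a) (g N A a) (h N A a) (i N A a) (j N A a)) := by
  have h0 : U KZ.{u} (fun _ _ (p : (((ZFSet.{u} × ZFSet.{u}) × ZFSet.{u}) × ZFSet.{u}) ×
      ZFSet.{u}) => SS p.1.1.1.1 p.1.1.1.2 p.1.1.2 p.1.2 p.2) := by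
    unfold SS
    apply_rules (transparency := .reducible) (maxDepth := 400) using is_poly
  exact h0.comp ((((hf.prodMk hg).prodMk hh).prodMk hi).prodMk hj)

attribute [is_poly] u_SS

/-- the union of the chosen sets -/
noncomputable def OO (j : ℕ) (T Q m P E f : ZFSet.{u}) : ZFSet.{u} :=
  ZFSet.sUnion (img (Q.sep (fun D => ∀ b ∈ P, ∃ c ∈ D, b ⊆ c)) (fun D =>
    argmin E (SS T Q m D (sh j (Helper22.SC.app f D)))))

theorem OO_mem {W A : Set ZFSet.{u}} (hW : IsZF W A) (j : ℕ) {T Q m P E f : ZFSet.{u}}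
    (hT : T ∈ W) (hQ : Q ∈ W) (hm : m ∈ W) (hP : P ∈ W) (hE : E ∈ W) (hf : f ∈ W) :
    OO j T Q m P E f ∈ W := by
  have h : U KZ.{u} (fun _ _ (p : ((ZFSet.{u} × ZFSet.{u}) × (ZFSet.{u} × ZFSet.{u})) ×
      (ZFSet.{u} × ZFSet.{u})) => OO j p.1.1.1 p.1.1.2 p.1.2.1 p.1.2.2 p.2.1 p.2.2) := by
    unfold OO
    apply_rules (transparency := .reducible) (maxDepth := 400) using is_poly
  have := h.closed hW (a := (((T, Q), (m, P)), (E, f))) (by simp [hT, hQ, hm, hP, hE, hf])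
  simpa using this

theorem tsum_pow (j : ℕ) : ∑' n : ℕ, (2⁻¹ : ℝ≥0∞) ^ (n + j) = 2 * 2⁻¹ ^ j := by
  have h : ∀ n : ℕ, (2⁻¹ : ℝ≥0∞) ^ (n + j) = 2⁻¹ ^ n * 2⁻¹ ^ j := fun n => pow_add _ _ _
  rw [tsum_congr h, ENNReal.tsum_mul_right, ENNReal.tsum_geometric, ENNReal.one_sub_inv_two,
    inv_inv]

theorem inv_pow_eq (n : ℕ) : ((1 : ℕ) : ℝ≥0∞) / 2 ^ n = 2⁻¹ ^ n := by
  rw [Nat.cast_one, one_div, ENNReal.inv_pow]

theorem st_MH (hMC : ST_MC.{u}) : ST_MH.{u} := by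
  classical
  intro M W D₁ D₂ hM hm hW hMW hcard hD₁ hD₂ hD₁R hD₂R hdense ε hε
  have hRM := RB_mem hM.zf hm
  have hQM : PW M (RB M) ∈ M := Helper22.SC.Pow_mem hM.zf hRM
  have hStrM : Str.{u} ∈ M := in_zfset.1 ((u_Str (α := ZFSet.{u})).closed hM.zf
    (a := ∅) (in_zfset.2 hM.zf.empty_mem))
  have hTM : PW M Str ∈ M := Helper22.SC.Pow_mem hM.zf hStrM
  obtain ⟨E, hE, hE'⟩ := exists_chooses hW.zf hW.wo (hMW hTM)
  obtain ⟨f, hf, _, hf2, hf3⟩ := cardLe_iff.1 hcard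
  obtain ⟨j, hj⟩ : ∃ j : ℕ, 2 * 2⁻¹ ^ j + 2 * (2⁻¹ : ℝ≥0∞) ^ j < ε := by
    obtain ⟨j, hj⟩ := ENNReal.exists_inv_two_pow_lt (a := ε / 4)
      (ENNReal.div_ne_zero.2 ⟨hε.ne', by norm_num⟩)
    refine ⟨j, ?_⟩
    rw [ENNReal.lt_div_iff_mul_lt (Or.inl (by norm_num)) (Or.inl (by norm_num))] at hj
    calc 2 * 2⁻¹ ^ j + 2 * (2⁻¹ : ℝ≥0∞) ^ j = 2⁻¹ ^ j * 4 := by ring
      _ < ε := hj
  set P := RB M with hP
  set Q := PW M P with hQ
  set T := PW M (Str : ZFSet.{u}) with hT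
  set O := OO j T Q MuR P E f with hO
  have hOW : O ∈ W := OO_mem hW.zf j (hMW hTM) (hMW hQM) (hMW hm) (hMW hRM) hE hf
  -- the chosen set
  set cc : ZFSet.{u} → ZFSet.{u} := fun D =>
    argmin E (SS T Q MuR D (sh j (Helper22.SC.app f D))) with hcc
  have hg : ∀ D ∈ Q, ∃ n : ℕ, Helper22.SC.app f D = nz n := fun D hD =>
    mem_omega_iff'.1 (hf2 D hD)
  choose! g hg using hg
  have hgi : ∀ D ∈ Q, ∀ D' ∈ Q, g D = g D' → D = D' := by
    intro D hD D' hD' h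
    exact hf3 D hD D' hD' (by rw [hg D hD, hg D' hD', h])
  have hSdE : ∀ e ∈ Q, ∀ b ∈ e, Sd b := fun e he b hb =>
    (mem_RB.1 ((mem_Pow.1 he).2 hb)).2.1
  have hchoice : ∀ D ∈ Q, (∀ b ∈ P, ∃ c ∈ D, b ⊆ c) →
      cc D ∈ SS T Q MuR D (nz (g D + j)) := by
    intro D hD hd
    have hDM : D ∈ M := (mem_Pow.1 hD).1
    have hDR : D ⊆ P := (mem_Pow.1 hD).2
    have h1 : sh j (Helper22.SC.app f D) = nz (g D + j) := by rw [hg D hD, sh_nz]
    rw [hcc]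
    show argmin E (SS T Q MuR D (sh j (Helper22.SC.app f D))) ∈ _
    rw [h1]
    refine hE' _ (fun c hc => (ZFSet.mem_sep.1 hc).1) ?_
    obtain ⟨E₀, hE₀, hE₀c⟩ := hMC M D hM.zf hM.wo hm hDM hDR hd ((2⁻¹ : ℝ≥0∞) ^ (g D + j))
      (ENNReal.pow_pos (by norm_num) _)
    obtain ⟨e, he⟩ := exists_zfset E₀
    have hfin : {b | b ∈ e}.Finite := E₀.finite_toSet.subset (fun b hb => (he b).1 hb)
    have heM : e ∈ M := finite_mem hM.zf (fun b hb => hM.zf.trans D hDM b (hE₀ b ((he b).1 hb)))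
      hfin
    have heD : e ⊆ D := fun b hb => hE₀ b ((he b).1 hb)
    have heQ : e ∈ Q := mem_Pow.2 ⟨heM, fun b hb => hDR (heD hb)⟩
    have hUI : US (Int e) = ⋂ b ∈ E₀, US b := by
      ext x
      rw [US_Int hfin (hSdE e heQ)]
      simp only [Set.mem_iInter]
      exact forall_congr' (fun b => by rw [he])
    have h3 : Int e ∈ SS T Q MuR D (nz (g D + j)) := by
      refine ZFSet.mem_sep.2 ⟨mem_Pow.2 ⟨Int_mem hM.zf heM, Int_Str e⟩,
        ⟨e, heQ, hfin, heD, rfl⟩, ?_⟩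
      have := (MA7 (Int e) ∅ 1 (g D + j) (Int_Str e) empty_VO
        (fun s hs => absurd hs (ZFSet.notMem_empty _))).1 (by
          rw [US_empty, Set.sdiff_empty, hUI, inv_pow_eq]
          exact hE₀c.le)
      exact this
    intro h4
    rw [h4] at h3
    exact absurd h3 (ZFSet.notMem_empty _)
  have hmeas : ∀ D ∈ Q, (∀ b ∈ P, ∃ c ∈ D, b ⊆ c) →
      coin (US (cc D)) ≤ 2⁻¹ ^ (g D + j) := by
    intro D hD hd
    obtain ⟨h1, h2, h3⟩ := ZFSet.mem_sep.1 (hchoice D hD hd)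
    have := (MA7 (cc D) ∅ 1 (g D + j) (mem_Pow.1 h1).2 empty_VO
      (fun s hs => absurd hs (ZFSet.notMem_empty _))).2 h3
    rwa [US_empty, Set.sdiff_empty, inv_pow_eq] at this
  set DD : Set ZFSet.{u} := {D | D ∈ Q ∧ ∀ b ∈ P, ∃ c ∈ D, b ⊆ c} with hDD
  have hOU : US O ⊆ ⋃ D ∈ DD, US (cc D) := by
    rintro x ⟨n, hn⟩
    obtain ⟨c, hc, hn⟩ := ZFSet.mem_sUnion.1 hn
    obtain ⟨D, hD, rfl⟩ := mem_img.1 hc
    obtain ⟨hD1, hD2⟩ := ZFSet.mem_sep.1 hD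
    exact Set.mem_biUnion (show D ∈ DD from ⟨hD1, hD2⟩) ⟨n, hn⟩
  have hDDc : DD.Countable :=
    Set.countable_iff_exists_injOn.2 ⟨g, fun D hD D' hD' h => hgi D hD.1 D' hD'.1 h⟩
  have hOc : coin (US O) ≤ 2 * 2⁻¹ ^ j := by
    refine (measure_mono hOU).trans ((measure_biUnion_le coin hDDc _).trans ?_)
    rw [← tsum_pow j]
    have h1 : ∀ D : DD, coin (US (cc D.1)) ≤ (2⁻¹ : ℝ≥0∞) ^ (g D.1 + j) := fun D =>
      hmeas D.1 D.2.1 D.2.2
    refine (ENNReal.tsum_le_tsum h1).trans ?_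
    exact ENNReal.tsum_comp_le_tsum_of_injective (f := fun D : DD => g D.1)
      (fun D D' h => Subtype.ext (hgi D.1 D.2.1 D'.1 D'.2.1 h))
      (fun n => (2⁻¹ : ℝ≥0∞) ^ (n + j))
  have hOS : O ⊆ Str := by
    intro s hs
    obtain ⟨c, hc, hs⟩ := ZFSet.mem_sUnion.1 hs
    obtain ⟨D, hD, rfl⟩ := mem_img.1 hc
    obtain ⟨hD1, hD2⟩ := ZFSet.mem_sep.1 hD
    have h1 := hchoice D hD1 hD2
    exact (mem_Pow.1 (ZFSet.mem_sep.1 h1).1).2 hs
  have hgen : ∀ y : ZFSet.{u}, y ⊆ ZFSet.omega → ¬ InU O y → IsGeneric M P (Fy M y) := by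
    intro y hy hOy
    refine generic_of_meets hM.zf hm hy (fun D hD hDR hd => ?_)
    have hDQ : D ∈ Q := mem_Pow.2 ⟨hD, hDR⟩
    obtain ⟨_, ⟨e, he, hfin, heD, hce⟩, _⟩ := ZFSet.mem_sep.1 (hchoice D hDQ hd)
    have h1 : cc D ⊆ O := fun s hs => ZFSet.mem_sUnion.2 ⟨cc D, mem_img.2 ⟨D,
      ZFSet.mem_sep.2 ⟨hDQ, hd⟩, rfl⟩, hs⟩
    by_contra hne
    push Not at hne
    apply hOy
    refine InU_mono h1 ?_
    obtain ⟨x, rfl⟩ := exists_rl hy
    rw [hce]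
    exact (US_Int hfin (hSdE e he)).2 (fun b hb => hne b (heD hb))
  -- the decision
  obtain ⟨E₃, hE₃, hE₃c⟩ := hMC M (D₁ ∪ D₂) hM.zf hM.wo hm (union_mem hM.zf hD₁ hD₂)
    (fun b hb => (ZFSet.mem_union.1 hb).elim (fun h => hD₁R h) (fun h => hD₂R h))
    (fun b hb => by
      obtain ⟨c, hbc, hc⟩ := hdense b hb
      exact ⟨c, ZFSet.mem_union.2 hc, hbc⟩) (2 * (2⁻¹ : ℝ≥0∞) ^ j)
    (ENNReal.mul_pos (by norm_num) (ENNReal.pow_pos (by norm_num) _).ne')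
  obtain ⟨e₁, he₁⟩ := exists_zfset (E₃.filter (fun b => b ∈ D₁))
  obtain ⟨e₂, he₂⟩ := exists_zfset (E₃.filter (fun b => b ∈ D₂))
  have key : ∀ (D e : ZFSet.{u}), D ∈ M → D ⊆ P →
      (∀ x, x ∈ e ↔ x ∈ E₃.filter (fun b => b ∈ D)) →
      Int e ∈ M ∧ (∀ x, x ∈ US (Int e) ↔ ∀ b ∈ E₃, b ∈ D → x ∈ US b) ∧
        ∀ y : ZFSet.{u}, y ⊆ ZFSet.omega → ¬ InU (Int e) y → ∃ c ∈ D, c ∈ Fy M y := by
    intro D e hD hDR he
    have hfin : {b | b ∈ e}.Finite := (E₃.filter (fun b => b ∈ D)).finite_toSet.subset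
      (fun b hb => (he b).1 hb)
    have heD : ∀ b ∈ e, b ∈ D := fun b hb => (Finset.mem_filter.1 ((he b).1 hb)).2
    have heM : e ∈ M := finite_mem hM.zf (fun b hb => hM.zf.trans D hD b (heD b hb)) hfin
    have hSd : ∀ b ∈ e, Sd b := fun b hb => (mem_RB.1 (hDR (heD b hb))).2.1
    refine ⟨Int_mem hM.zf heM, fun x => ?_, fun y hy hne => ?_⟩
    · rw [US_Int hfin hSd]
      constructor
      · exact fun h b hb hbD => h b ((he b).2 (Finset.mem_filter.2 ⟨hb, hbD⟩))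
      · exact fun h b hb => h b (Finset.mem_filter.1 ((he b).1 hb)).1 (heD b hb)
    · obtain ⟨x, rfl⟩ := exists_rl hy
      by_contra hno
      push Not at hno
      apply hne
      refine (US_Int hfin hSd).2 (fun b hb => ?_)
      by_contra hb2
      exact hno b (heD b hb) (mem_Fy.2 ⟨hDR (heD b hb), hb2⟩)
  obtain ⟨h1M, h1U, h1y⟩ := key D₁ e₁ hD₁ hD₁R he₁
  obtain ⟨h2M, h2U, h2y⟩ := key D₂ e₂ hD₂ hD₂R he₂
  refine ⟨O ∪ Int e₂, union_mem hW.zf hOW (hMW h2M), O ∪ Int e₁,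
    union_mem hW.zf hOW (hMW h1M), union_Str hOS (Int_Str _), union_Str hOS (Int_Str _), ?_, ?_⟩
  · refine lt_of_le_of_lt ?_ hj
    have h1 : US (O ∪ Int e₂) ∩ US (O ∪ Int e₁) ⊆ US O ∪ ⋂ b ∈ E₃, US b := by
      rw [US_union, US_union]
      rintro x ⟨hx | hx, hx' | hx'⟩
      · exact Or.inl hx
      · exact Or.inl hx
      · exact Or.inl hx'
      · refine Or.inr ?_
        simp only [Set.mem_iInter]
        intro b hb
        rcases ZFSet.mem_union.1 (hE₃ b hb) with h | h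
        · exact (h1U x).1 hx' b hb h
        · exact (h2U x).1 hx b hb h
    refine (measure_mono h1).trans ((measure_union_le _ _).trans ?_)
    exact add_le_add hOc hE₃c.le
  · intro y _ hy
    refine ⟨fun hne => ?_, fun hne => ?_⟩
    · exact ⟨hgen y hy (fun h => hne (InU_mono sub_union_l h)),
        h2y y hy (fun h => hne (InU_mono sub_union_r h))⟩
    · exact ⟨hgen y hy (fun h => hne (InU_mono sub_union_l h)),
        h1y y hy (fun h => hne (InU_mono sub_union_r h))⟩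

end Pool.Agent.Helper76.GP
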